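import Pool.Agent.FHQ.StmtsU
import Pool.Agent.Helper2_FHQ.LDJ

/-!
# Squad FHQ, row FIN: finitely many elements of the fixed field
-/

set_option autoImplicit false

open scoped BigOperators

noncomputable section

namespace Pool.Agent.FHQ.H44

open Polynomial Pool.Agent.FHQ

/-- primitive element over the fraction field, with denominators -/
theorem prim {A L : Type} [CommRing A] [IsDomain A] [Field L] [CharZero L] [Algebra A L]
    [FaithfulSMul A L] (r : ℕ) (η : Fin r → L) (hη : ∀ j, IsAlgebraic A (η j)) (S : Subfield L)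
    (hA : ∀ a : A, algebraMap A L a ∈ S) (hS : ∀ j, η j ∈ S) :
    ∃ γ ∈ S, IsIntegral A γ ∧ ∃ D : A, D ≠ 0 ∧ ∃ s : Fin r → A[X],
      ∀ j, algebraMap A L D * η j = aeval γ (s j) := by
  classical
  let _ : Algebra (FractionRing A) L := FractionRing.liftAlgebra A L
  have : IsScalarTower A (FractionRing A) L := FractionRing.isScalarTower_liftAlgebra A L
  have : CharZero (FractionRing A) := (algebraMap (FractionRing A) L).charZero
  have hη' : ∀ x ∈ Set.range η, IsIntegral (FractionRing A) x := by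
    rintro x ⟨j, rfl⟩
    exact ((IsFractionRing.isAlgebraic_iff A (FractionRing A) L).1 (hη j)).isIntegral
  have : FiniteDimensional (FractionRing A) (IntermediateField.adjoin (FractionRing A)
      (Set.range η)) := IntermediateField.finiteDimensional_adjoin hη'
  set N := IntermediateField.adjoin (FractionRing A) (Set.range η) with hN
  obtain ⟨α, hα⟩ := Field.exists_primitive_element (FractionRing A) N
  have hFS : ∀ z : FractionRing A, algebraMap (FractionRing A) L z ∈ S := by
    intro z
    obtain ⟨a, b, -, rfl⟩ := IsFractionRing.div_surjective A z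
    rw [map_div₀, ← IsScalarTower.algebraMap_apply, ← IsScalarTower.algebraMap_apply]
    exact S.div_mem (hA a) (hA b)
  have hNS : N ≤ S.toIntermediateField hFS := by
    rw [hN, IntermediateField.adjoin_le_iff]
    rintro x ⟨j, rfl⟩
    exact hS j
  have hαS : (α : L) ∈ S := hNS α.2
  have hαalg : IsAlgebraic (FractionRing A) α := Algebra.IsAlgebraic.isAlgebraic α
  have hq : ∀ j, ∃ q : (FractionRing A)[X], aeval (α : L) q = η j := by
    intro j
    have hj : η j ∈ N := IntermediateField.subset_adjoin _ _ ⟨j, rfl⟩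
    have h1 : (⟨η j, hj⟩ : N) ∈ IntermediateField.adjoin (FractionRing A) {α} := by
      rw [hα]; trivial
    have h2 : (⟨η j, hj⟩ : N) ∈ (IntermediateField.adjoin (FractionRing A) {α}).toSubalgebra := h1
    rw [IntermediateField.adjoin_simple_toSubalgebra_of_isAlgebraic hαalg,
      Algebra.adjoin_singleton_eq_range_aeval] at h2
    obtain ⟨q, hq⟩ := h2
    refine ⟨q, ?_⟩
    have h3 := congrArg (algebraMap N L) hq
    have h4 : algebraMap N L (aeval α q) = aeval (algebraMap N L α) q :=
      (aeval_algebraMap_apply L α q).symm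
    have h5 : algebraMap N L (aeval α q) = η j := by
      rw [show aeval α q = (⟨η j, hj⟩ : N) from hq]
      rfl
    rw [h4] at h5
    exact h5
  choose q hq using hq
  have hαA : IsAlgebraic A (α : L) :=
    (IsFractionRing.isAlgebraic_iff A (FractionRing A) L).2 (by
      have := hαalg.algebraMap (A := L)
      exact this)
  obtain ⟨d, hd, hint⟩ := hαA.exists_integral_multiple
  have hdL : algebraMap A L d ≠ 0 := by
    intro h
    exact hd ((map_eq_zero_iff _ (FaithfulSMul.algebraMap_injective A L)).1 h)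
  have hdF : algebraMap A (FractionRing A) d ≠ 0 := by
    intro h
    exact hd ((map_eq_zero_iff _ (IsFractionRing.injective A (FractionRing A))).1 h)
  refine ⟨d • (α : L), ?_, hint, ?_⟩
  · rw [Algebra.smul_def]; exact S.mul_mem (hA d) hαS
  set γ := d • (α : L) with hγ
  -- polynomials in `γ`
  let q' : Fin r → (FractionRing A)[X] :=
    fun j => (q j).comp (C (algebraMap A (FractionRing A) d)⁻¹ * X)
  have hq' : ∀ j, aeval γ (q' j) = η j := by
    intro j
    change aeval γ ((q j).comp _) = η j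
    rw [aeval_comp, ← hq j]
    congr 1
    rw [map_mul, aeval_C, aeval_X, map_inv₀, ← IsScalarTower.algebraMap_apply, hγ,
      Algebra.smul_def, ← mul_assoc, inv_mul_cancel₀ hdL, one_mul]
  have hn : ∀ j, ∃ (b : A) (s : A[X]), b ≠ 0 ∧ algebraMap A L b * η j = aeval γ s := by
    intro j
    obtain ⟨b, hb, hb2⟩ := IsLocalization.integerNormalization_spec (nonZeroDivisors A) (q' j)
    refine ⟨b, IsLocalization.integerNormalization (nonZeroDivisors A) (q' j),
      nonZeroDivisors.ne_zero hb, ?_⟩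
    have h1 := congrArg (aeval γ) hb2
    rw [aeval_map_algebraMap] at h1
    rw [h1, ← hq' j, Algebra.smul_def]
    rw [map_mul]
    congr 1
    have h2 : algebraMap A (FractionRing A)[X] b = C (algebraMap A (FractionRing A) b) := rfl
    rw [h2, aeval_C, ← IsScalarTower.algebraMap_apply]
  choose b s hb hs using hn
  refine ⟨∏ j, b j, Finset.prod_ne_zero_iff.2 fun j _ => hb j,
    fun j => C (∏ i ∈ Finset.univ.erase j, b i) * s j, fun j => ?_⟩
  rw [map_mul, aeval_C, ← hs j, ← Finset.mul_prod_erase Finset.univ b (Finset.mem_univ j), map_mul]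
  ring

/-- polynomials in `X`, evaluated at `x` -/
abbrev sg {L : Type} [Field L] (K : Subfield L) (x : L) : (↥K)[X] →+* L :=
  (evalRingHom x).comp (mapRingHom K.subtype)

theorem ev_map {L : Type} [Field L] (K : Subfield L) (x γ : L) (G : (↥K)[X][X]) :
    ev x γ (G.map (mapRingHom K.subtype)) = G.eval₂ (sg K x) γ := by
  unfold ev
  rw [eval₂_map]

theorem sg_inj {L : Type} [Field L] {K : Subfield L} (hK : ∀ a : L, IsAlgebraic K a → a ∈ K)
    {x : L} (hx : x ∉ K) : Function.Injective (sg K x) := by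
  rw [injective_iff_map_eq_zero]
  intro p hp
  by_contra h0
  apply hx
  apply hK
  refine ⟨p, h0, ?_⟩
  rw [aeval_def, eval₂_eq_eval_map]
  exact hp

theorem sg_sum {L : Type} [Field L] (K : Subfield L) (x : L) (p : (↥K)[X]) (N : ℕ)
    (h : p.natDegree < N) : sg K x p = ∑ a : Fin N, ((p.coeff a : K) : L) * x ^ (a : ℕ) := by
  change (p.map K.subtype).eval x = _
  rw [← eval₂_eq_eval_map, eval₂_eq_sum_range' _ h, Finset.sum_range]
  rfl

/-- the elements of `K(x) ^ alg` are algebraic over `K[X]` -/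
theorem alg_closure {L : Type} [Field L] {K : Subfield L}
    (hK : ∀ a : L, IsAlgebraic K a → a ∈ K) {x : L} (hx : x ∉ K) {η : L} (hη : η ∈ aclx K x) :
    ∃ Q : (↥K)[X][X], Q ≠ 0 ∧ Q.eval₂ (sg K x) η = 0 := by
  let _ : Algebra (↥K)[X] L := (sg K x).toAlgebra
  have hfs : FaithfulSMul (↥K)[X] L := (faithfulSMul_iff_algebraMap_injective _ _).2 (sg_inj hK hx)
  let _ : Algebra (FractionRing (↥K)[X]) L := FractionRing.liftAlgebra (↥K)[X] L
  have : IsScalarTower (↥K)[X] (FractionRing (↥K)[X]) L :=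
    FractionRing.isScalarTower_liftAlgebra _ L
  set φ := algebraMap (FractionRing (↥K)[X]) L with hφ
  have hle : Subfield.closure (insert x (K : Set L)) ≤ φ.fieldRange := by
    rw [Subfield.closure_le]
    rintro y (rfl | hy)
    · refine ⟨algebraMap _ _ (X : (↥K)[X]), ?_⟩
      rw [hφ, ← IsScalarTower.algebraMap_apply]
      change ((X : (↥K)[X]).map K.subtype).eval y = y
      rw [Polynomial.map_X, eval_X]
    · refine ⟨algebraMap _ _ (C (⟨y, hy⟩ : K)), ?_⟩
      rw [hφ, ← IsScalarTower.algebraMap_apply]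
      change ((C (⟨y, hy⟩ : K)).map K.subtype).eval x = y
      rw [Polynomial.map_C, eval_C]
      rfl
  have hη1 : IsAlgebraic (Subfield.closure (insert x (K : Set L))) η := by
    have h1 : η ∈ algebraicClosure (Subfield.closure (insert x (K : Set L))) L := hη
    exact mem_algebraicClosure_iff.1 h1
  obtain ⟨p, hp0, hp⟩ := hη1
  -- the inverse of `φ`
  have hφinj : Function.Injective φ := φ.injective
  let e : FractionRing (↥K)[X] ≃+* φ.fieldRange := RingEquiv.ofBijective φ.rangeRestrictField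
    ⟨fun a b h => hφinj (congrArg Subtype.val h), fun y => by
      obtain ⟨z, hz⟩ := y.2
      exact ⟨z, Subtype.ext hz⟩⟩
  let ψ : Subfield.closure (insert x (K : Set L)) →+* FractionRing (↥K)[X] :=
    (e.symm : φ.fieldRange →+* FractionRing (↥K)[X]).comp (Subfield.inclusion hle)
  have hψ : φ.comp ψ = (Subfield.closure (insert x (K : Set L))).subtype := by
    ext y
    have h1 : e (ψ y) = Subfield.inclusion hle y := e.apply_symm_apply _
    exact congrArg Subtype.val h1
  have halg : IsAlgebraic (FractionRing (↥K)[X]) η := by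
    refine ⟨p.map ψ, (Polynomial.map_ne_zero_iff ψ.injective).2 hp0, ?_⟩
    rw [aeval_def, eval₂_map, ← hφ, hψ]
    exact hp
  have h2 := (IsFractionRing.isAlgebraic_iff (↥K)[X] (FractionRing (↥K)[X]) L).2 halg
  obtain ⟨Q, hQ0, hQ⟩ := h2
  exact ⟨Q, hQ0, hQ⟩

/-- fixed algebraic elements are algebraic over the fixed field -/
theorem alg_fix {L : Type} [Field L] (f : L →+* L) {K : Subfield L} (hfK : ∀ a ∈ K, f a ∈ K)
    {x : L} (hfx : f x = x) {η : L} (hη : f η = η) {Q : (↥K)[X][X]} (hQ0 : Q ≠ 0)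
    (hQ : Q.eval₂ (sg K x) η = 0) :
    ∃ P : (↥(K ⊓ fixs f))[X][X], P ≠ 0 ∧ P.eval₂ (sg (K ⊓ fixs f) x) η = 0 := by
  classical
  by_contra hcon
  push Not at hcon
  obtain ⟨N, hN1, hN2⟩ : ∃ N, Q.natDegree < N ∧ ∀ b, (Q.coeff b).natDegree < N := by
    refine ⟨Q.natDegree + (∑ b ∈ Q.support, (Q.coeff b).natDegree) + 1, by omega, ?_⟩
    intro b
    by_cases hb : b ∈ Q.support
    · have := Finset.single_le_sum (f := fun b => (Q.coeff b).natDegree)
        (fun i _ => Nat.zero_le _) hb
      omega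
    · rw [notMem_support_iff.1 hb, natDegree_zero]; omega
  let z : Fin (N * N) → L := fun i =>
    x ^ ((finProdFinEquiv.symm i).1 : ℕ) * η ^ ((finProdFinEquiv.symm i).2 : ℕ)
  have hz : ∀ i, f (z i) = z i := by
    intro i
    simp only [z, map_mul, map_pow, hfx, hη]
  have hind : ∀ c : Fin (N * N) → L, (∀ i, c i ∈ K ∧ f (c i) = c i) → ∑ i, c i * z i = 0 →
      ∀ i, c i = 0 := by
    intro c hc hs
    have hcE : ∀ i, c i ∈ K ⊓ fixs f := fun i => ⟨(hc i).1, (hc i).2⟩
    let P : (↥(K ⊓ fixs f))[X][X] := ∑ i : Fin (N * N),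
      C (C (⟨c i, hcE i⟩ : ↥(K ⊓ fixs f)) * X ^ ((finProdFinEquiv.symm i).1 : ℕ)) *
        X ^ ((finProdFinEquiv.symm i).2 : ℕ)
    have hP : P.eval₂ (sg (K ⊓ fixs f) x) η = 0 := by
      change Polynomial.eval₂ _ _ (∑ i, _) = 0
      rw [eval₂_finsetSum, ← hs]
      apply Finset.sum_congr rfl
      intro i _
      rw [eval₂_mul, eval₂_C, eval₂_pow, eval₂_X]
      change (Polynomial.map _ _).eval x * _ = _
      rw [Polynomial.map_mul, Polynomial.map_C, Polynomial.map_pow, Polynomial.map_X, eval_mul,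
        eval_C, eval_pow, eval_X, mul_assoc]
      rfl
    have hP0 : P = 0 := by
      by_contra h
      exact hcon P h hP
    intro i
    have h1 : (P.coeff ((finProdFinEquiv.symm i).2 : ℕ)).coeff ((finProdFinEquiv.symm i).1 : ℕ) =
        (⟨c i, hcE i⟩ : ↥(K ⊓ fixs f)) := by
      change ((∑ i, _ : (↥(K ⊓ fixs f))[X][X]).coeff _).coeff _ = _
      rw [finsetSum_coeff, finsetSum_coeff, Finset.sum_eq_single i]
      · rw [coeff_C_mul_X_pow, if_pos rfl, coeff_C_mul_X_pow, if_pos rfl]
      · intro j _ hj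
        rw [coeff_C_mul_X_pow]
        by_cases h2 : ((finProdFinEquiv.symm i).2 : ℕ) = ((finProdFinEquiv.symm j).2 : ℕ)
        · rw [if_pos h2, coeff_C_mul_X_pow, if_neg]
          intro h3
          apply hj
          apply finProdFinEquiv.symm.injective
          exact Prod.ext (Fin.ext h3.symm) (Fin.ext h2.symm)
        · rw [if_neg h2, coeff_zero]
      · intro h; exact absurd (Finset.mem_univ i) h
    rw [hP0, coeff_zero, coeff_zero] at h1
    exact (congrArg Subtype.val h1).symm
  have hres := Pool.Agent.FHQ.H2.ldj L f K hfK (N * N) z hz hind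
    (fun i => (((Q.coeff ((finProdFinEquiv.symm i).2 : ℕ)).coeff
      ((finProdFinEquiv.symm i).1 : ℕ) : K) : L)) (fun i => Subtype.mem _) (by
      rw [← Equiv.sum_comp finProdFinEquiv]
      simp only [z, Equiv.symm_apply_apply]
      rw [Fintype.sum_prod_type, Finset.sum_comm, ← hQ, eval₂_eq_sum_range' _ hN1,
        Finset.sum_range]
      apply Finset.sum_congr rfl
      intro b _
      rw [sg_sum K x (Q.coeff b) N (hN2 b), Finset.sum_mul]
      apply Finset.sum_congr rfl
      intro a _
      ring)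
  apply hQ0
  ext b a
  by_cases hb : b < N
  · by_cases ha : a < N
    · have h1 := hres (finProdFinEquiv (⟨a, ha⟩, ⟨b, hb⟩))
      simp only [Equiv.symm_apply_apply] at h1
      rw [coeff_zero, coeff_zero, h1]
      rfl
    · rw [coeff_eq_zero_of_natDegree_lt (lt_of_lt_of_le (hN2 b) (not_lt.1 ha)), coeff_zero,
        coeff_zero]
  · rw [coeff_eq_zero_of_natDegree_lt (lt_of_lt_of_le hN1 (not_lt.1 hb)), coeff_zero]
    rfl

theorem sg_incl {L : Type} [Field L] (K : Subfield L) (E : Subfield L) (h : E ≤ K) (x : L) :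
    sg E x = (sg K x).comp (mapRingHom (Subfield.inclusion h)) := by
  refine Polynomial.ringHom_ext (fun a => ?_) ?_
  · simp [sg]
    rfl
  · simp [sg]

/-- FIN -/
theorem fin : FinStmt := by
  intro L _ _ f K hfK hKalg x hfx hxK r η hη
  have hle : K ⊓ fixs f ≤ K := inf_le_left
  have hKinj := sg_inj hKalg hxK
  have hEK := sg_incl K (K ⊓ fixs f) hle x
  have hEinj : Function.Injective (sg (K ⊓ fixs f) x) := by
    rw [hEK]
    exact hKinj.comp (Polynomial.map_injective _ (RingHom.injective _))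
  let _ : Algebra (↥(K ⊓ fixs f))[X] L := (sg (K ⊓ fixs f) x).toAlgebra
  have hfs : FaithfulSMul (↥(K ⊓ fixs f))[X] L :=
    (faithfulSMul_iff_algebraMap_injective _ _).2 hEinj
  -- `f` on the images of the polynomials
  have hfE : ∀ a : (↥(K ⊓ fixs f))[X], f (sg (K ⊓ fixs f) x a) = sg (K ⊓ fixs f) x a := by
    intro a
    have h1 : f.comp (sg (K ⊓ fixs f) x) = sg (K ⊓ fixs f) x := by
      refine Polynomial.ringHom_ext (fun a => ?_) ?_
      · simp only [sg, RingHom.comp_apply, coe_mapRingHom, Polynomial.map_C, coe_evalRingHom,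
          eval_C]
        exact a.2.2
      · simp only [sg, RingHom.comp_apply, coe_mapRingHom, Polynomial.map_X, coe_evalRingHom,
          eval_X]
        exact hfx
    exact DFunLike.congr_fun h1 a
  have hηf : ∀ j, f (η j) = η j := fun j => (hη j).2
  have halg : ∀ j, IsAlgebraic (↥(K ⊓ fixs f))[X] (η j) := by
    intro j
    obtain ⟨Q, hQ0, hQ⟩ := alg_closure hKalg hxK (hη j).1
    obtain ⟨P, hP0, hP⟩ := alg_fix f hfK hfx (hηf j) hQ0 hQ
    exact ⟨P, hP0, hP⟩
  obtain ⟨γ, hγS, hint, D, hD, s, hs⟩ := prim r η halg (fixs f) (fun a => hfE a)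
    (fun j => (hη j).2)
  have hfγ : f γ = γ := hγS
  set h := minpoly (↥(K ⊓ fixs f))[X] γ with hh
  have hmon : h.Monic := minpoly.monic hint
  have hhγ : h.eval₂ (sg (K ⊓ fixs f) x) γ = 0 := minpoly.aeval _ _
  -- over `K`
  let _ : Algebra (↥K)[X] L := (sg K x).toAlgebra
  have hfsK : FaithfulSMul (↥K)[X] L := (faithfulSMul_iff_algebraMap_injective _ _).2 hKinj
  have hhK : (h.map (mapRingHom (Subfield.inclusion hle))).eval₂ (sg K x) γ = 0 := by
    rw [eval₂_map, ← hEK]
    exact hhγ
  have hmonK : (h.map (mapRingHom (Subfield.inclusion hle))).Monic := hmon.map _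
  have hintK : IsIntegral (↥K)[X] γ := ⟨_, hmonK, hhK⟩
  set h' := minpoly (↥K)[X] γ with hh'
  have hmon' : h'.Monic := minpoly.monic hintK
  have hh'γ : h'.eval₂ (sg K x) γ = 0 := minpoly.aeval _ _
  let fK : K →+* K := (f.comp K.subtype).codRestrict K.toSubring (fun a => hfK a a.2)
  have hcomp : (sg K x).comp (mapRingHom fK) = f.comp (sg K x) := by
    refine Polynomial.ringHom_ext (fun a => ?_) ?_
    · simp only [sg, RingHom.comp_apply, coe_mapRingHom, Polynomial.map_C, coe_evalRingHom,
        eval_C]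
      rfl
    · simp only [sg, RingHom.comp_apply, coe_mapRingHom, Polynomial.map_X, coe_evalRingHom,
        eval_X]
      exact hfx.symm
  have hF0 : (h'.map (mapRingHom fK)).eval₂ (sg K x) γ = 0 := by
    rw [eval₂_map, hcomp]
    have h1 := Polynomial.hom_eval₂ h' (sg K x) f γ
    rw [hfγ, hh'γ, map_zero] at h1
    exact h1.symm
  have hFeq : h'.map (mapRingHom fK) = h' := by
    have hdvd : h' ∣ h'.map (mapRingHom fK) := minpoly.isIntegrallyClosed_dvd hintK hF0
    exact eq_of_monic_of_dvd_of_natDegree_le hmon' (hmon'.map _) hdvd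
      (by rw [hmon'.natDegree_map])
  have hcoef : ∀ b a, (((h'.coeff b).coeff a : K) : L) ∈ K ⊓ fixs f := by
    intro b a
    refine ⟨Subtype.mem _, ?_⟩
    have h1 := congrArg (fun P : (↥K)[X][X] => (((P.coeff b).coeff a : K) : L)) hFeq
    simp only [coeff_map, coe_mapRingHom] at h1
    exact h1
  have hlift : h' ∈ lifts (mapRingHom (Subfield.inclusion hle)) := by
    rw [lifts_iff_coeff_lifts]
    intro b
    have h1 : h'.coeff b ∈ lifts (Subfield.inclusion hle) := by
      rw [lifts_iff_coeff_lifts]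
      intro a
      exact ⟨⟨_, hcoef b a⟩, rfl⟩
    obtain ⟨q, hq⟩ := h1
    exact ⟨q, hq⟩
  obtain ⟨h0, hh0, hdeg0, hmon0⟩ := lifts_and_natDegree_eq_and_monic hlift hmon'
  have hh00 : h0.eval₂ (sg (K ⊓ fixs f) x) γ = 0 := by
    rw [hEK, ← eval₂_map, hh0]
    exact hh'γ
  have hdvd0 : h ∣ h0 := minpoly.isIntegrallyClosed_dvd hint hh00
  have hdvd1 : h' ∣ h.map (mapRingHom (Subfield.inclusion hle)) :=
    minpoly.isIntegrallyClosed_dvd hintK hhK
  have hd1 : h'.natDegree ≤ h.natDegree := by
    have := natDegree_le_of_dvd hdvd1 hmonK.ne_zero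
    rwa [hmon.natDegree_map] at this
  have heq : h0 = h := eq_of_monic_of_dvd_of_natDegree_le hmon hmon0 hdvd0 (by rw [hdeg0]; exact hd1)
  refine ⟨h, D, s, γ, hmon, minpoly.natDegree_pos hint, hD, hfγ, ?_, ?_, ?_, ?_⟩
  · rw [ev_map]; exact hhγ
  · intro j
    rw [ev_map]
    exact hs j
  · rw [← heq, hh0]
    exact minpoly.irreducible hintK
  · intro G hG
    rw [ev_map] at hG
    exact minpoly.isIntegrallyClosed_dvd hint hG

end Pool.Agent.FHQ.H44
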